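import Pool.Agent.Lib.MP_361a6f_ag.FL.PT0.Stat
import Pool.Agent.Lib.MP_361a6f_ag.FL.TT.Defs

/-!
# The hypotheses on the place
-/

open CategoryTheory AlgebraicGeometry MonoidalCategory CartesianMonoidalCategory

universe u v w w'

namespace Pool.Agent.Lib.MP_361a6f_ag.FL

open Pool.Agent.Lib.MP_361a6f_ag.H3 Pool.Agent.Lib.MP_361a6f_ag.SQ

/-- The hypotheses on the place: `X` is a group, for instance an abelian variety, with
`H^0(X) = ℂ`, `ξ` is a divisor class of positive degree, `s` is a specialisation of `X` to `X'`, and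
`F` is (a power of) the Frobenius endomorphism over the field with `q` elements: `F × ⋯ × F`
multiplies the algebraic classes of codimension `l` on the powers of `X'` by `q^l`. -/
structure EQ.Place {k : Type u} [Field k] {k' : Type v} [Field k']
    {W : CohomologyData.{u, 0, w} k ℂ} (𝒱 : VarietyClass k)
    {W' : CohomologyData.{v, 0, w'} k' ℂ} (𝒱' : VarietyClass k') (D : EQ.Data W W') : Prop where
  mem : 𝒱.mem D.X D.g
  conn : ∀ x, W.Deg D.X 0 x → ∃ c, x = W.scal c 1
  group : EQ.Group D.X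
  div : PositiveDivisor W D.X D.g D.ξ
  mem' : 𝒱'.mem D.X' D.g
  spec : EQ.IsSpec W D.X W' D.X' D.s
  pos : 0 < D.q
  frob : ∀ P l z, W'.IsAlg (EQ.pw D.X' P) l z →
    W'.pb (EQ.pwMap D.F P) z = W'.scal ((D.q : ℂ) ^ l) z

end Pool.Agent.Lib.MP_361a6f_ag.FL
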