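import Pool.Agent.Lib.MP_361a6f_ag.FL.FIN.StatG

/-!
# The final theorem on all algebraic classes, for all ample classes
-/

open CategoryTheory AlgebraicGeometry MonoidalCategory CartesianMonoidalCategory

universe u v w w'

namespace Pool.Agent.Lib.MP_361a6f_ag.FL

open Pool.Agent.Lib.MP_361a6f_ag.H3 Pool.Agent.Lib.MP_361a6f_ag.SQ

/-- **Theorem A.** Let `X` be an abelian variety with the property `EQ.CondF`. Then numerical
equivalence is homological equivalence on all powers `Y` of `X`, and `Q1` holds for all algebraic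
classes and all divisor classes `L` on `Y` such that `Tr(L^i h^(N - i)) > 0` for `0 ≤ i ≤ N = dim Y`,
where `h = ∑ pr_i^* ξ`. If `ξ` is ample these are the ample classes on the abelian variety `Y`.

Here `X'` is a reduction of `X` over the algebraic closure of a finite field or, at a place of bad
reduction, the product of the abelian part of the semistable reduction and of a power of a
supersingular elliptic curve, and `s(ξ)` is the class of an ample divisor on `X'`. EITHER `F^*` has
`2 g` different eigenvalues on `H^1(X')`, OR Tate's theorem holds for `F` (`EQ.Tate`). -/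
def ThmA : Prop :=
  ∀ {k : Type u} [Field k] (W : CohomologyData.{u, 0, w} k ℂ) (𝒱 : VarietyClass k)
    (_ : IsWeilCohomology W 𝒱) {k' : Type v} [Field k'] (W' : CohomologyData.{v, 0, w'} k' ℂ)
    (𝒱' : VarietyClass k') (_ : IsWeilCohomology W' 𝒱') (D : EQ.Data W W') (_ : EQ.Place 𝒱 𝒱' D)
    (_ : (∃ a : Fin (2 * D.g) → ℂ, Function.Injective a ∧
      ∀ i, ∃ x, W'.Deg D.X' 1 x ∧ x ≠ 0 ∧ W'.pb D.F x = W'.scal (a i) x) ∨ EQ.Tate W' D.F)
    (_ : EQ.Effective W' D.X' D.g (D.s (.leaf 0) D.ξ)) (_ : EQ.CondF D) (P : Prd 1),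
    EQ.NumHom W (EQ.pw D.X P) ∧ ∀ L, W.IsAlg (EQ.pw D.X P) 1 L →
      (∀ i ≤ P.dim fun _ => D.g,
        RatPos (W.Tr (W.cup (L ^ i) (P.pol W (fun _ => D.ξ) ^ ((P.dim fun _ => D.g) - i))))) →
      EQ.Q1 W (EQ.pw D.X P) (P.dim fun _ => D.g) L

end Pool.Agent.Lib.MP_361a6f_ag.FL
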