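import Pool.Agent.Lib.MP_361a6f_ag.FL.EMC.StatEMC
import Pool.Agent.Lib.MP_361a6f_ag.FL.FIN.Place

/-!
# The final theorem on all algebraic classes: the definitions used in the statement
-/

open CategoryTheory AlgebraicGeometry MonoidalCategory CartesianMonoidalCategory

universe u v w w'

namespace Pool.Agent.Lib.MP_361a6f_ag.FL

open Pool.Agent.Lib.MP_361a6f_ag.H3 Pool.Agent.Lib.MP_361a6f_ag.SQ

/-- For `m ≥ 3` there are no `2 m` independent minimal stable subspaces `U_i` of `H^1(X)` that are
not isotropic, all but at most one of them fixed by `T`, and numbers `a_i` with the product `q^m`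
such that `R a_i x` for some `x` in `U_i` (in the theorem: `a_i` is an eigenvalue of `F^*` on the
specialisation of `U_i`), for which some `U_i` has dimension at least `32` or two `U_i` have
dimension at least `8`. -/
def EQ.NoRel {k : Type u} [Field k] (W : CohomologyData.{u, 0, w} k ℂ) (X : Sch k) (n : ℕ)
    (ξ : W.coh X) (q : ℕ) (T : ∀ P : Prd 1, W.coh (EQ.pw X P) → W.coh (EQ.pw X P))
    (R : ℂ → W.coh X → Prop) : Prop :=
  ∀ (m : ℕ) (U : Fin (2 * m) → Submodule ℂ (W.coh X)) (a : Fin (2 * m) → ℂ), 3 ≤ m →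
    (∀ i, EQ.MinStab W X n (U i) ∧ ¬ EQ.Isot W X n ξ (U i)) → iSupIndep U →
    (∃ i, ∀ j, j ≠ i → ∀ x ∈ U j, EQ.sub1 (X := X) T x = 0) →
    (∀ i, ∃ x ∈ U i, R (a i) x) → ∏ i, a i = (q : ℂ) ^ m →
    (∀ i, Module.finrank ℂ (U i) < 32) ∧
      ∀ i j, i ≠ j → 8 ≤ Module.finrank ℂ (U i) → Module.finrank ℂ (U j) < 8

section defs

variable {k : Type u} [Field k] {k' : Type v} [Field k'] {W : CohomologyData.{u, 0, w} k ℂ}
  {W' : CohomologyData.{v, 0, w'} k' ℂ}

/-- The specialisation of `x` is an eigenvector of `F^*` with the eigenvalue `a`. -/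
def EQ.Eig (D : EQ.Data W W') (a : ℂ) (x : W.coh D.X) : Prop :=
  x ≠ 0 ∧ W'.pb D.F (D.s (.leaf 0) x) = W'.scal a (D.s (.leaf 0) x)

/-- The quotient of two different eigenvalues of `F^*` on `H^1(X')` is not a root of unity, every
isotropic minimal stable subspace of `H^1(X)` has the property `EQ.Bal`, and there is an operator
`T` as in `EQ.Mono` (`T = 1` is allowed) with `EQ.NoRel`.

(For abelian varieties: the first condition is true for a power of Frobenius. The second condition
is empty if there is no factor of type IV. The third condition is true for `T = 1` if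
`dim X ≤ 11`, or if `X` is simple and `dim X ≤ 23`, or if the centre of the endomorphism algebra has
at most `5` real embeddings, for instance if all factors are of type IV, or if there are no
`2 m ≥ 6` different subspaces `U_i` of this kind and eigenvalues `a_i` of `F^*` on them with
`a_1 ⋯ a_2m = q^m`; and at a place of bad reduction, for a local monodromy operator `T`, if `X` is
simple of any dimension, or if no simple factor of `X` has potentially good reduction at the
place.) -/
structure EQ.CondF (D : EQ.Data W W') : Prop where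
  ratio : ∀ (a b : ℂ) (x y : W'.coh D.X'), W'.Deg D.X' 1 x → W'.Deg D.X' 1 y → x ≠ 0 → y ≠ 0 →
    W'.pb D.F x = W'.scal a x → W'.pb D.F y = W'.scal b y → ∀ n : ℕ, 0 < n → a ^ n = b ^ n → a = b
  bal : ∀ U, EQ.MinStab W D.X D.g U → EQ.Isot W D.X D.g D.ξ U → EQ.Bal W D.X D.g U
  few : ∃ T, EQ.Mono D T ∧ EQ.NoRel W D.X D.g D.ξ D.q T (EQ.Eig D)

end defs

/-- **Theorem G.** Let `X` be an abelian variety with the property `EQ.CondF`. Then `Q1` holds
for all algebraic classes on all powers of `X`, and numerical equivalence is homological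
equivalence. Here `X'` is a reduction of `X` over the algebraic closure of a finite field or, at a
place of bad reduction, the product of the abelian part of the semistable reduction and of a power
of a supersingular elliptic curve, and `ξ` is the class of an ample divisor, so that `s(ξ)` is the
class of an ample divisor on `X'`. EITHER `F^*` has `2 g` different eigenvalues on `H^1(X')`, OR
Tate's theorem holds for `F` (`EQ.Tate`). -/
def ThmG : Prop :=
  ∀ {k : Type u} [Field k] (W : CohomologyData.{u, 0, w} k ℂ) (𝒱 : VarietyClass k)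
    (_ : IsWeilCohomology W 𝒱) {k' : Type v} [Field k'] (W' : CohomologyData.{v, 0, w'} k' ℂ)
    (𝒱' : VarietyClass k') (_ : IsWeilCohomology W' 𝒱') (D : EQ.Data W W') (_ : EQ.Place 𝒱 𝒱' D)
    (_ : (∃ a : Fin (2 * D.g) → ℂ, Function.Injective a ∧
      ∀ i, ∃ x, W'.Deg D.X' 1 x ∧ x ≠ 0 ∧ W'.pb D.F x = W'.scal (a i) x) ∨ EQ.Tate W' D.F)
    (_ : EQ.Effective W' D.X' D.g (D.s (.leaf 0) D.ξ)) (_ : EQ.CondF D)
    (P : Prd 1) (η : W.coh (EQ.pw D.X P)) (_ : IsPol W (fun _ => D.ξ) P η),
    EQ.Q1 W (EQ.pw D.X P) (P.dim fun _ => D.g) η ∧ EQ.NumHom W (EQ.pw D.X P)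

end Pool.Agent.Lib.MP_361a6f_ag.FL
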