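import Pool.Agent.Lib.MP_361a6f_ag.FL.FIN.ThmG
import Pool.Agent.Lib.MP_361a6f_ag.FL.FIN.StatA
import Pool.Agent.Lib.MP_361a6f_ag.FL.AM.Pow
import Pool.Agent.Lib.MP_361a6f_ag.FL.AM.Main

/-!
# Theorem A: all ample classes
-/

open CategoryTheory AlgebraicGeometry MonoidalCategory CartesianMonoidalCategory

universe u v w w'

set_option autoImplicit false

namespace Pool.Agent.Lib.MP_361a6f_ag.FL

open Pool.Agent.Lib.MP_361a6f_ag.H3 Pool.Agent.Lib.MP_361a6f_ag.SQ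
  Pool.Agent.Lib.MP_361a6f_ag.FL.E Pool.Agent.Lib.MP_361a6f_ag.FL.PT

/-- the class `∑ pr_i^* ξ` -/
theorem AM.isPol_pol {k : Type u} [Field k] {W : CohomologyData.{u, 0, w} k ℂ} {m : ℕ}
    {X : Fin m → Sch k} {ξ : ∀ a, W.coh (X a)} : (P : Prd m) → IsPol W ξ P (P.pol W ξ)
  | .leaf a => by
    have h := IsPol.leaf (W := W) (ξ := ξ) a 1 one_pos
    have e : W.scal (((1 : ℚ) : ℂ)) (ξ a) = ξ a := by
      change (((1 : ℚ) : ℂ)) • ξ a = ξ a
      rw [Rat.cast_one, one_smul]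
    exact Eq.mp (congrArg (IsPol W ξ (Prd.leaf a)) e) h
  | .prod P Q => IsPol.prod P Q _ _ (AM.isPol_pol P) (AM.isPol_pol Q)

/-- **Theorem A.** -/
theorem thmA : ThmA.{u, v, w, w'} := by
  intro k _ W 𝒱 hW k' _ W' 𝒱' hW' D hP hT hE few P
  have hu : EQ.Unital D.X := by
    obtain ⟨m, e, h1, h2, -⟩ := hP.group
    exact ⟨m, e, h1, h2⟩
  obtain ⟨hQ, hN⟩ := thmG W 𝒱 hW W' 𝒱' hW' D hP hT hE few P
    (Prd.pol W (fun _ => D.ξ) P) (AM.isPol_pol P)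
  have hAX : AbelianType W D.X D.g := abelianType_of_unital hW hP.mem hP.conn hu hP.div
  obtain ⟨c⟩ := Hst.exists_core hW hP.mem hP.div.1
    (unital hW hP.mem hP.conn hu hP.div).1 (unital hW hP.mem hP.conn hu hP.div).2.1
  obtain ⟨-, -, -, -, -, -, -, -, -, hA, hpd⟩ := EndFr.exists_frm (c.host hW hP.mem hP.div.1)
    (fun _ => hAX) (fun _ => hP.div) (P := P) (AM.isPol_pol P)
  have hY : 𝒱.mem (EQ.pw D.X P) (P.dim fun _ => D.g) := (c.host hW hP.mem hP.div.1).memP P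
  refine ⟨hN, fun L hL hpos => ?_⟩
  exact AM.q1_of_path hW hY hpd.1 hL
    (fun t ht => AM.hl_seg hW hY hA (AM.unital_pw hP.group P) hpd hL hpos ht.1 ht.2) hN hQ

end Pool.Agent.Lib.MP_361a6f_ag.FL
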