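import Pool.Agent.Lib.MP_361a6f_ag.FL.EMR.ThmR48
import Pool.Agent.Lib.MP_361a6f_ag.FL.PT0.FinI
import Pool.Agent.Lib.MP_361a6f_ag.FL.TT.Fin
import Pool.Agent.Lib.MP_361a6f_ag.FL.FIN.StatG

/-!
# Theorem G
-/

open CategoryTheory AlgebraicGeometry MonoidalCategory CartesianMonoidalCategory

universe u v w w'

set_option autoImplicit false

namespace Pool.Agent.Lib.MP_361a6f_ag.FL

open Pool.Agent.Lib.MP_361a6f_ag.H3 Pool.Agent.Lib.MP_361a6f_ag.SQ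
  Pool.Agent.Lib.MP_361a6f_ag.FL.E Pool.Agent.Lib.MP_361a6f_ag.FL.PT
  Pool.Agent.Lib.MP_361a6f_ag.FL.E.Orb Pool.Agent.Lib.MP_361a6f_ag.FL.E.BR

/-- **Theorem G.** -/
theorem thmG : ThmG.{u, v, w, w'} := by
  intro k _ W 𝒱 hW k' _ W' 𝒱' hW' D hP hT hE few P η hη
  have hu : EQ.Unital D.X := by
    obtain ⟨m, e, h1, h2, -⟩ := hP.group
    exact ⟨m, e, h1, h2⟩
  have hT' : EQ.Tate W' D.F := hT.elim
    (fun h => TT.tate_of_distinct' hW hW' hP.mem hP.conn hu hP.div hP.mem' hP.spec h) id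
  have hB : EQ.Base 𝒱 𝒱' D :=
    ⟨hP.mem, hP.conn, hu, hP.div, hP.mem', hP.spec, hP.pos, hP.frob, few.ratio⟩
  have hI := TT.inputs_of_tate hW hW' hB hE hT'
  have h := PT0.hyp_of_inputs hW hW' hB hI
  obtain ⟨c⟩ := Hst.exists_core_hyp hW h
  have hc : EQ.CondR D := ⟨few.bal, few.few⟩
  exact of_pos1 hW h c
    (GeoC.pos1_R hW hW' h c E.thmR (PT0.four1 hW hW' hB hI hE c) hc) P η hη

end Pool.Agent.Lib.MP_361a6f_ag.FL
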